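import Pool.Agent.H10R3.SC.Stmts3
import Pool.Agent.Helper347.SabSmith
import Pool.Agent.Helper347.SabGraph

set_option autoImplicit false

/-! Circuits are the minimal nonempty even sets. -/

open Finset

namespace Pool.Agent.H246R3.CX

open Pool.Agent.Helper347.Sab
open Pool.Agent.H10R3.SC

theorem minCirc : TMinCirc := by
  intro V E _ _ _ _ G D
  refine ⟨fun hD Z hZ hne hev => circuit_minimal G D Z hD hev hZ hne, fun hne hdeg hmin => ?_⟩
  obtain ⟨X, hX, hXc, -⟩ := component G D hdeg hne
  have h1 : X = D := by
    refine hmin X hX hXc.1 fun v => ?_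
    rcases hXc.2.1 v with h | h
    · rw [h]
      exact Even.zero
    · rw [h]
      exact even_two
  exact h1 ▸ hXc

end Pool.Agent.H246R3.CX
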