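import Pool.Agent.H971R3.FV.Stmts3

set_option autoImplicit false

/-! # TaskRepar: arc length reparametrisation -/

open MeasureTheory Set Filter Topology

namespace Pool.Agent.H246R3.FVRepar

open Pool.Agent.H971R3.FV

/-- Projection to `[0, L]`. -/
noncomputable def cl (L r : ℝ) : ℝ := max 0 (min L r)

theorem continuous_cl (L : ℝ) : Continuous (cl L) := by
  unfold cl
  fun_prop

theorem cl_mem {L : ℝ} (hL : 0 < L) (r : ℝ) : cl L r ∈ Icc (0 : ℝ) L :=
  ⟨le_max_left _ _, max_le hL.le (min_le_left _ _)⟩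

theorem cl_of_mem {L r : ℝ} (hr : r ∈ Icc (0 : ℝ) L) : cl L r = r := by
  unfold cl
  rw [min_eq_right hr.2, max_eq_right hr.1]

theorem taskRepar : TaskRepar := by
  intro V X _ _ _ L A f Φ hL hA hf hApos hfpos hS
  -- the extension of `A`
  set A1 : ℝ → ℝ := fun r => A (cl L r) with hA1
  have hA1c : Continuous A1 := hA.comp (continuous_cl L)
  have hA1pos : ∀ r, 0 < A1 r := fun r => hApos _ (cl_mem hL r)
  have hA1eq : ∀ r ∈ Icc (0 : ℝ) L, A1 r = A r := fun r hr => by
    simp only [hA1]
    rw [cl_of_mem hr]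
  obtain ⟨m, hm, hmA⟩ : ∃ m, 0 < m ∧ ∀ r, m ≤ A1 r := by
    obtain ⟨r0, hr0, hmin⟩ := isCompact_Icc.exists_isMinOn (nonempty_Icc.2 hL.le)
      hA.continuousOn
    exact ⟨A r0, hApos r0 hr0, fun r => hmin (cl_mem hL r)⟩
  -- the arc length
  set S : ℝ → ℝ := fun r => ∫ t in (0 : ℝ)..r, A1 t with hSdef
  have hSder : ∀ r, HasDerivAt S (A1 r) r := fun r =>
    intervalIntegral.integral_hasDerivAt_right (hA1c.intervalIntegrable _ _)
      (hA1c.stronglyMeasurableAtFilter _ _) hA1c.continuousAt
  have hScont : Continuous S := continuous_iff_continuousAt.2 fun r => (hSder r).continuousAt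
  have hSmono : StrictMono S := by
    refine strictMono_of_deriv_pos fun r => ?_
    rw [(hSder r).deriv]
    exact hA1pos r
  have hS0 : S 0 = 0 := by simp [hSdef]
  have hmono : Monotone fun r => S r - m * r := by
    refine monotone_of_deriv_nonneg ?_ fun r => ?_
    · exact fun r => ((hSder r).sub ((hasDerivAt_id r).const_mul m)).differentiableAt
    · have h1 : HasDerivAt (fun r => S r - m * r) (A1 r - m * 1) r :=
        (hSder r).sub ((hasDerivAt_id r).const_mul m)
      rw [h1.deriv]
      have := hmA r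
      linarith
  have hStop : Tendsto S atTop atTop := by
    refine tendsto_atTop_mono' atTop ?_ (tendsto_id.const_mul_atTop hm)
    filter_upwards [eventually_ge_atTop (0 : ℝ)] with r hr
    have := hmono hr
    simp only [hS0] at this
    simp only [id]
    linarith
  have hSbot : Tendsto S atBot atBot := by
    refine tendsto_atBot_mono' atBot ?_ (tendsto_id.const_mul_atBot hm)
    filter_upwards [eventually_le_atBot (0 : ℝ)] with r hr
    have := hmono hr
    simp only [hS0] at this
    simp only [id]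
    linarith
  have hSsurj : Function.Surjective S := hScont.surjective hStop hSbot
  let e : ℝ ≃o ℝ := StrictMono.orderIsoOfSurjective S hSmono hSsurj
  have he : ∀ r, e r = S r := fun r => rfl
  set h : ℝ → ℝ := fun s => e.symm s with hhdef
  have hhc : Continuous h := e.symm.continuous
  have hSh : ∀ s, S (h s) = s := fun s => e.apply_symm_apply s
  have hhS : ∀ r, h (S r) = r := fun r => e.symm_apply_apply r
  have hhmono : StrictMono h := e.symm.strictMono
  have hhder : ∀ s, HasDerivAt h (A1 (h s))⁻¹ s := fun s =>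
    HasDerivAt.of_local_left_inverse hhc.continuousAt (hSder (h s)) (hA1pos _).ne'
      (Eventually.of_forall hSh)
  have hM : (∫ r in (0 : ℝ)..L, A r) = S L := by
    simp only [hSdef]
    refine intervalIntegral.integral_congr fun r hr => ?_
    rw [uIcc_of_le hL.le] at hr
    exact (hA1eq r hr).symm
  rw [hM]
  have hh0 : h 0 = 0 := by
    have h1 := hhS 0
    rwa [hS0] at h1
  have hhL : h (S L) = L := hhS L
  have hSL : 0 < S L := by
    rw [← hS0]
    exact hSmono hL
  have hhmem : ∀ s ∈ Icc (0 : ℝ) (S L), h s ∈ Icc (0 : ℝ) L := fun s hs =>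
    ⟨hh0 ▸ hhmono.monotone hs.1, (hhmono.monotone hs.2).trans_eq hhL⟩
  refine ⟨fun s => A1 (h s) * f (h s), h, ?_, hSL, ?_, ?_, hhL, ?_, ?_⟩
  · exact (hA1c.comp hhc).mul (hf.comp hhc)
  · intro s hs
    refine mul_pos (hA1pos _) (hfpos _ ⟨?_, (hhmono.monotone hs.2).trans_eq hhL⟩)
    rw [← hh0]
    exact hhmono hs.1
  · intro h0
    simp only [hh0, h0, mul_zero]
  · intro s s' u u' a b hab hs hu hs' hu' hmem
    have hsc : ContinuousOn s (Icc a b) := fun t ht => (hs t ht).continuousWithinAt
    have h1 := hS (fun t => h (s t)) (fun t => (A1 (h (s t)))⁻¹ * s' t) u u' a b hab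
      (fun t ht => (hhder (s t)).comp_hasDerivWithinAt t (hs t ht)) hu ?_ hu' ?_
    · refine h1.trans_eq ?_
      refine intervalIntegral.integral_congr fun t ht => ?_
      rw [uIcc_of_le hab] at ht
      have h2 := hhmem _ (hmem t ht).1
      have h3 := hA1pos (h (s t))
      have h4 : A (h (s t)) = A1 (h (s t)) := (hA1eq _ h2).symm
      simp only
      rw [h4, one_mul]
      have h5 : (s' t) ^ 2 + (A1 (h (s t)) * f (h (s t))) ^ 2 * ‖u' t‖ ^ 2 =
          (A1 (h (s t))) ^ 2 * (((A1 (h (s t)))⁻¹ * s' t) ^ 2 +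
            (f (h (s t))) ^ 2 * ‖u' t‖ ^ 2) := by
        field_simp
      rw [h5, Real.sqrt_mul (sq_nonneg _), Real.sqrt_sq h3.le]
    · refine ContinuousOn.mul ?_ hs'
      refine ContinuousOn.inv₀ ?_ fun t _ => (hA1pos _).ne'
      exact (hA1c.comp hhc).comp_continuousOn hsc
    · exact fun t ht => ⟨hhmem _ (hmem t ht).1, (hmem t ht).2⟩
  · intro d
    have hg : Continuous fun s => (A1 (h s) * f (h s)) ^ d :=
      ((hA1c.comp hhc).mul (hf.comp hhc)).pow d
    have h1 := intervalIntegral.integral_comp_mul_deriv (a := 0) (b := L) (f := S) (f' := A1)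
      (g := fun s => (A1 (h s) * f (h s)) ^ d) (fun r _ => hSder r) hA1c.continuousOn hg
    rw [hS0] at h1
    rw [← h1]
    refine intervalIntegral.integral_congr fun r hr => ?_
    rw [uIcc_of_le hL.le] at hr
    simp only [Function.comp_apply]
    rw [hhS, hA1eq r hr]
    ring

end Pool.Agent.H246R3.FVRepar
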