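import Pool.Agent.H839R3.Nas.Stmts
import Pool.Agent.Helper672.SIK.Bridge

/-!
# The task Fto
-/

namespace Pool.Agent.H246R3.Fto

open FirstOrder FirstOrder.Language
open Pool.Agent.Helper672.Plain (LSet Zermelo toL isModel_toL isOrdPair_toL)
open Pool.Agent.Helper672.ZFA
open Pool.Agent.H635Amen (ZF)
open Pool.Agent.H310Cards
open Pool.Agent.H839R3.Nas (Amorphous TaskFto TaskSplit)

universe u

attribute [local instance] toL

/-- The elements of `x`. -/
def el {N : Type u} [LSet.Structure N] (x : N) : Set N := {z | Helper672.Plain.Mem z x}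

section

variable {N : Type u} [LSet.Structure N] [hZ : Zermelo N]

local instance instModelL : IsModel N := isModel_toL

theorem ordPair_iff {q x y : N} : Helper672.Plain.IsOrdPair q x y ↔ q = op x y :=
  isOrdPair_toL.symm.trans isOrdPair_iff_op

theorem app_iff {f x y : N} : App f x y ↔ op x y ∈ el f := by
  unfold App
  constructor
  · rintro ⟨q, h1, h2⟩
    rw [ordPair_iff] at h1
    rw [← h1]
    exact h2
  · intro h
    exact ⟨_, ordPair_iff.2 rfl, h⟩

theorem ext_el {x y : N} (h : el x = el y) : x = y :=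
  hZ.ext x y fun z => Set.ext_iff.1 h z

theorem exists_sep {p : N → Prop} (hp : D (fun v : Fin 1 → N => p (v 0))) (x : N) :
    ∃ y : N, ∀ z, z ∈ el y ↔ z ∈ el x ∧ p z := by
  obtain ⟨y, _, hy⟩ := small_sep (S := {z | p z}) hp x
  exact ⟨y, hy⟩

theorem exists_rel {p : N → N → Prop}
    (hp : ∀ (κ : Type) (i j : κ), D (fun v : κ → N => p (v i) (v j))) (A B : N) :
    ∃ r : N, ∀ a b, App r a b ↔ a ∈ el A ∧ b ∈ el B ∧ p a b := by
  obtain ⟨P, _, hP⟩ := small_prod A B
  have hD : D (fun v : Fin 1 → N => ∃ x y, v 0 = op x y ∧ p x y) := by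
    refine D.ex (D.ex (D.and (D.eqf (DF.var _) (DF.op (DF.var _) (DF.var _))) ?_))
    exact hp _ _ _
  obtain ⟨r, hr⟩ := exists_sep (p := fun z => ∃ x y, z = op x y ∧ p x y) hD P
  refine ⟨r, fun a b => ?_⟩
  rw [app_iff, hr]
  constructor
  · rintro ⟨h1, x, y, h2, h3⟩
    obtain ⟨rfl, rfl⟩ := op_inj h2
    obtain ⟨x', y', h4, h5, h6⟩ := (hP _).1 h1
    obtain ⟨rfl, rfl⟩ := op_inj h6
    exact ⟨h4, h5, h3⟩
  · rintro ⟨h1, h2, h3⟩
    exact ⟨(hP _).2 ⟨a, b, h1, h2, rfl⟩, a, b, rfl, h3⟩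

theorem exists_finset (s : Finset N) : ∃ y : N, ∀ z, z ∈ el y ↔ z ∈ s := by
  classical
  induction s using Finset.induction_on with
  | empty =>
    obtain ⟨y, _, hy⟩ := small_empty (M := N)
    exact ⟨y, fun z => (hy z).trans (by simp)⟩
  | insert a s _ ih =>
    obtain ⟨y, hy⟩ := ih
    obtain ⟨x, _, hx⟩ := small_union (up a a) y
    refine ⟨x, fun z => (hx z).trans ?_⟩
    rw [Finset.mem_insert, ← hy]
    constructor
    · rintro (h | h)
      · rcases mem_up.1 h with h | h <;> exact Or.inl h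
      · exact Or.inr h
    · rintro (h | h)
      · exact Or.inl (mem_up.2 (Or.inl h))
      · exact Or.inr h

theorem exists_finite {s : Set N} (hs : s.Finite) : ∃ y : N, el y = s := by
  obtain ⟨y, hy⟩ := exists_finset hs.toFinset
  exact ⟨y, Set.ext fun z => (hy z).trans (by simp)⟩

/-- There is an injection from the preimage of `a` to the preimage of `b`. -/
def Cmp (d g a b : N) : Prop :=
  ∃ f : N, (∀ x, (Helper672.ZFA.Mem x d ∧ Helper672.ZFA.Mem (op x a) g) →
    ∃ x', (Helper672.ZFA.Mem x' d ∧ Helper672.ZFA.Mem (op x' b) g) ∧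
      Helper672.ZFA.Mem (op x x') f) ∧
    ∀ x₁ x₂ x', (Helper672.ZFA.Mem x₁ d ∧ Helper672.ZFA.Mem (op x₁ a) g) →
      (Helper672.ZFA.Mem x₂ d ∧ Helper672.ZFA.Mem (op x₂ a) g) →
      Helper672.ZFA.Mem (op x₁ x') f → Helper672.ZFA.Mem (op x₂ x') f → x₁ = x₂

theorem d_mem1 {κ : Type} (d g : N) {f h : (κ → N) → N} (hf : DF f) (hh : DF h) :
    D (fun v : κ → N => Helper672.ZFA.Mem (f v) d ∧ Helper672.ZFA.Mem (op (f v) (h v)) g) :=
  D.and (D.memf hf (DF.const _)) (D.memf (DF.op hf hh) (DF.const _))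

theorem d_cmp (d g : N) (κ : Type) (i j : κ) : D (fun v : κ → N => Cmp d g (v i) (v j)) := by
  unfold Cmp
  refine D.ex (D.and ?_ ?_)
  · refine D.all (D.imp (d_mem1 d g (DF.var _) (DF.var _)) (D.ex (D.and
      (d_mem1 d g (DF.var _) (DF.var _)) ?_)))
    exact D.memf (DF.op (DF.var _) (DF.var _)) (DF.var _)
  · refine D.all (D.all (D.all (D.imp (d_mem1 d g (DF.var _) (DF.var _)) (D.imp
      (d_mem1 d g (DF.var _) (DF.var _)) (D.imp ?_ (D.imp ?_ ?_))))))
    · exact D.memf (DF.op (DF.var _) (DF.var _)) (DF.var _)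
    · exact D.memf (DF.op (DF.var _) (DF.var _)) (DF.var _)
    · exact D.eqf (DF.var _) (DF.var _)

end

section

variable {N : Type u} [LSet.Structure N] [hF : ZF N]

local instance instModelL' : IsModel N := isModel_toL

theorem not_mem_self (x : N) : x ∉ el x := by
  intro h
  obtain ⟨y, hy⟩ := exists_finset ({x} : Finset N)
  obtain ⟨z, h1, h2⟩ := hF.foundation y ⟨x, (hy x).2 (by simp)⟩
  have h3 : z = x := by simpa using (hy z).1 h1
  subst h3
  exact h2 z h1 h

theorem exists_nat (k : ℕ) : ∃ (n : N) (t : Finset N), IsNat n ∧ (∀ z, z ∈ el n ↔ z ∈ t) ∧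
    t.card = k := by
  classical
  induction k with
  | zero =>
    obtain ⟨y, hy⟩ := exists_finset (∅ : Finset N)
    refine ⟨y, ∅, fun i hi => ?_, hy, rfl⟩
    obtain ⟨⟨e, h1, h2⟩, _⟩ := hi
    have : e = y := ext_el (Set.ext fun z => ⟨fun h => absurd h (h2 z), fun h => by
      simpa using (hy z).1 h⟩)
    exact this ▸ h1
  | succ k ih =>
    obtain ⟨n, t, h1, h2, h3⟩ := ih
    obtain ⟨y, hy⟩ := exists_finset (insert n t)
    refine ⟨y, insert n t, fun i hi => ?_, hy, ?_⟩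
    · obtain ⟨s, h4, h5⟩ := hi.2 n (h1 i hi)
      have : s = y := ext_el (Set.ext fun z => by
        rw [hy, Finset.mem_insert, ← h2]
        exact (h5 z).trans or_comm)
      exact this ▸ h4
    · rw [Finset.card_insert_of_notMem, h3]
      intro h
      exact not_mem_self n ((h2 n).2 h)

theorem isFinite_of {x : N} (hx : (el x).Finite) : IsFinite x := by
  classical
  obtain ⟨n, t, h1, h2, h3⟩ := exists_nat (N := N) hx.toFinset.card
  let e := Finset.equivOfCardEq h3.symm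
  obtain ⟨f, hf⟩ := exists_finset (hx.toFinset.attach.image (fun z => op z.1 (e z).1))
  have hA : ∀ a b, App f a b ↔ ∃ h : a ∈ hx.toFinset, (e ⟨a, h⟩).1 = b := by
    intro a b
    rw [app_iff, hf, Finset.mem_image]
    constructor
    · rintro ⟨z, _, hz⟩
      obtain ⟨h4, h5⟩ := op_inj hz
      subst h4
      exact ⟨z.2, h5⟩
    · rintro ⟨h, rfl⟩
      exact ⟨⟨a, h⟩, Finset.mem_attach _ _, rfl⟩
  have hm : ∀ a, a ∈ hx.toFinset ↔ a ∈ el x := fun a => by simp
  refine ⟨n, f, h1, ⟨⟨⟨fun q hq => ?_, fun a ha => ?_⟩, fun a a' b hab hab' => ?_⟩,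
    fun b hb => ?_⟩⟩
  · obtain ⟨z, _, hz⟩ := Finset.mem_image.1 ((hf q).1 hq)
    refine ⟨z.1, (e z).1, (hm _).1 z.2, (h2 _).2 (e z).2, ordPair_iff.2 hz.symm⟩
  · refine ⟨(e ⟨a, (hm a).2 ha⟩).1, (hA _ _).2 ⟨(hm a).2 ha, rfl⟩, fun b hb => ?_⟩
    obtain ⟨h, h'⟩ := (hA _ _).1 hb
    exact h'.symm
  · obtain ⟨h, h'⟩ := (hA _ _).1 hab
    obtain ⟨k, k'⟩ := (hA _ _).1 hab'
    have h6 : e ⟨a, h⟩ = e ⟨a', k⟩ := Subtype.ext (h'.trans k'.symm)
    exact congrArg Subtype.val (e.injective h6)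
  · refine ⟨(e.symm ⟨b, (h2 b).1 hb⟩).1, (hA _ _).2 ⟨(e.symm ⟨b, (h2 b).1 hb⟩).2, ?_⟩⟩
    simp

variable (hstd : ∀ x : N, IsFinite x → {y | Helper672.Plain.Mem y x}.Finite)

include hstd

theorem isFinite_iff {x : N} : IsFinite x ↔ (el x).Finite := ⟨hstd x, isFinite_of⟩

theorem amorphous_inf {y : N} (hy : Amorphous y) : (el y).Infinite :=
  fun h => hy.1 (isFinite_of h)

theorem amorphous_fin {y : N} (hy : Amorphous y) {z : N} (hz : el z ⊆ el y)
    (hi : (el z).Infinite) : (el y \ el z).Finite := by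
  rcases hy.2 z hz with h | h
  · exact absurd (hstd z h) hi
  · obtain ⟨w, hw⟩ := exists_sep (p := fun x => ¬ Helper672.ZFA.Mem x z)
      (D.not (D.memf (DF.var _) (DF.const _))) y
    have h1 := hstd w (h w hw)
    have h2 : el y \ el z = el w := Set.ext fun x => (hw x).symm
    rw [h2]
    exact h1

theorem not_amorphous {b : N} (hb : ¬ Amorphous b) (hi : (el b).Infinite) :
    ∃ z w : N, (el z).Infinite ∧ (el w).Infinite ∧ el z ⊆ el b ∧ el w ⊆ el b ∧
      Disjoint (el z) (el w) := by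
  unfold Amorphous at hb
  rw [not_and_or, not_not] at hb
  rcases hb with hb | hb
  · exact absurd (hstd b hb) hi
  push Not at hb
  obtain ⟨z, h1, h2, w, h3, h4⟩ := hb
  refine ⟨z, w, fun h => h2 (isFinite_of h), fun h => h4 (isFinite_of h), h1,
    fun x hx => ((h3 x).1 hx).1, ?_⟩
  rw [Set.disjoint_left]
  intro x hx hx'
  exact ((h3 x).1 hx').2 hx

theorem exists_parts {d : N} (hd : ∀ b, (∀ x, Helper672.Plain.Mem x b →
      Helper672.Plain.Mem x d) → ¬ Amorphous b) (m : ℕ) :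
    ∀ b : N, el b ⊆ el d → (el b).Infinite → ∃ P : Fin m → N,
      (∀ i, (el (P i)).Infinite ∧ el (P i) ⊆ el b) ∧
        ∀ i j, i ≠ j → Disjoint (el (P i)) (el (P j)) := by
  induction m with
  | zero => exact fun b _ _ => ⟨fun i => i.elim0, fun i => i.elim0, fun i => i.elim0⟩
  | succ m ih =>
    intro b hb hi
    obtain ⟨z, w, h1, h2, h3, h4, h5⟩ := not_amorphous hstd (hd b hb) hi
    obtain ⟨P, hP, hP'⟩ := ih w (h4.trans hb) h2
    refine ⟨Fin.cons z P, fun i => ?_, fun i j => ?_⟩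
    · refine Fin.cases ?_ (fun i => ?_) i
      · exact ⟨h1, h3⟩
      · simp only [Fin.cons_succ]
        exact ⟨(hP i).1, (hP i).2.trans h4⟩
    · refine Fin.cases ?_ (fun i => ?_) i
      · refine Fin.cases ?_ (fun j => ?_) j
        · intro h
          exact absurd rfl h
        · intro _
          simp only [Fin.cons_succ, Fin.cons_zero]
          exact h5.mono_right (hP j).2
      · refine Fin.cases ?_ (fun j => ?_) j
        · intro _
          simp only [Fin.cons_succ, Fin.cons_zero]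
          exact (h5.mono_right (hP i).2).symm
        · intro h
          simp only [Fin.cons_succ]
          exact hP' i j fun h' => h (h' ▸ rfl)

/-- The image of an infinite subset of `d` is infinite. -/
theorem image_inf {d g : N} (hfib : ∀ x, x ∈ el d →
      {x' | Helper672.Plain.Mem x' d ∧ ∀ z, App g x z ↔ App g x' z}.Finite)
    {b : N} (hb : el b ⊆ el d) (hi : (el b).Infinite) :
    {z | ∃ x ∈ el b, App g x z}.Infinite := by
  intro hf
  apply hi
  let F : N → Set N := fun x => {z | App g x z}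
  have h1 : (F '' el b).Finite := by
    refine (hf.finite_subsets).subset ?_
    rintro _ ⟨x, hx, rfl⟩
    intro z hz
    exact ⟨x, hx, hz⟩
  refine Set.Finite.of_finite_fibers F h1 ?_
  rintro _ ⟨x, hx, rfl⟩
  refine (hfib x (hb hx)).subset ?_
  rintro x' ⟨h2, h3⟩
  exact ⟨hb h2, fun z => (Set.ext_iff.1 h3 z).symm⟩

/-- Sub-case B1. -/
theorem caseB1 {y d g : N} (hy : Amorphous y) (hd : ∀ b, (∀ x, Helper672.Plain.Mem x b →
      Helper672.Plain.Mem x d) → ¬ Amorphous b) (hdi : (el d).Infinite)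
    (hgy : ∀ x z, App g x z → x ∈ el d → z ∈ el y)
    (hfib : ∀ x, x ∈ el d →
      {x' | Helper672.Plain.Mem x' d ∧ ∀ z, App g x z ↔ App g x' z}.Finite)
    (hB : ∀ z, z ∈ el y → {x | x ∈ el d ∧ App g x z}.Finite) (m : ℕ) :
    {z | z ∈ el y ∧ {x | x ∈ el d ∧ App g x z}.ncard ≤ m}.Finite := by
  by_contra hK
  obtain ⟨P, hP, hP'⟩ := exists_parts hstd hd (m + 1) d subset_rfl hdi
  have hY : ∀ i, (el y \ {z | ∃ x ∈ el (P i), App g x z}).Finite := by
    intro i
    obtain ⟨Y, hY⟩ := exists_sep (p := fun z => ∃ x, Helper672.ZFA.Mem x (P i) ∧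
      Helper672.ZFA.Mem (op x z) g) (D.ex (D.and (D.memf (DF.var _) (DF.const _))
        (D.memf (DF.op (DF.var _) (DF.var _)) (DF.const _)))) y
    have h1 : el Y = {z | ∃ x ∈ el (P i), App g x z} := by
      ext z
      rw [hY]
      constructor
      · rintro ⟨_, x, hx, h2⟩
        exact ⟨x, hx, app_iff.2 h2⟩
      · rintro ⟨x, hx, h2⟩
        exact ⟨hgy x z h2 ((hP i).2 hx), x, hx, app_iff.1 h2⟩
    rw [← h1]
    refine amorphous_fin hstd hy (fun z hz => ((hY z).1 hz).1) ?_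
    rw [h1]
    exact image_inf hstd hfib (hP i).2 (hP i).1
  have hU : (⋃ i, (el y \ {z | ∃ x ∈ el (P i), App g x z})).Finite := Set.finite_iUnion hY
  obtain ⟨z, hz, hz'⟩ := (Set.Infinite.sdiff (Set.not_finite.1 hK) hU).nonempty
  have h1 : ∀ i, ∃ x ∈ el (P i), App g x z := by
    intro i
    by_contra h
    exact hz' (Set.mem_iUnion.2 ⟨i, hz.1, h⟩)
  choose x hx hxz using h1
  have hinj : Function.Injective x := by
    intro i j hij
    by_contra h
    exact Set.disjoint_left.1 (hP' i j h) (hx i) (hij ▸ hx j)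
  have h2 : Set.range x ⊆ {x | x ∈ el d ∧ App g x z} := by
    rintro _ ⟨i, rfl⟩
    exact ⟨(hP i).2 (hx i), hxz i⟩
  have h3 := Set.ncard_le_ncard h2 (hB z hz.1)
  have h4 : (Set.range x).ncard = m + 1 := by
    rw [← Set.image_univ, Set.ncard_image_of_injective _ hinj, Set.ncard_univ, Nat.card_fin]
  have h5 := hz.2
  omega

omit hstd in
/-- Comparison of finite sets inside the model. -/
theorem cmp_iff {d g : N} {a b : N} (ha : {x | x ∈ el d ∧ App g x a}.Finite)
    (hb : {x | x ∈ el d ∧ App g x b}.Finite) :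
    Cmp d g a b ↔
    {x | x ∈ el d ∧ App g x a}.ncard ≤ {x | x ∈ el d ∧ App g x b}.ncard := by
  constructor
  · rintro ⟨f, h1, h2⟩
    choose! φ hφ using h1
    refine Set.ncard_le_ncard_of_injOn φ ?_ ?_ hb
    · rintro x ⟨hx, hx'⟩
      have h3 := (hφ x ⟨hx, app_iff.1 hx'⟩).1
      exact ⟨h3.1, app_iff.2 h3.2⟩
    · rintro x ⟨hx, hx'⟩ x₂ ⟨hx₂, hx₂'⟩ h
      have h3 := (hφ x ⟨hx, app_iff.1 hx'⟩).2
      have h4 := (hφ x₂ ⟨hx₂, app_iff.1 hx₂'⟩).2
      rw [← h] at h4
      exact h2 x x₂ (φ x) ⟨hx, app_iff.1 hx'⟩ ⟨hx₂, app_iff.1 hx₂'⟩ h3 h4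
  · intro h
    have h0 : {x | x ∈ el d ∧ App g x a}.encard ≤ {x | x ∈ el d ∧ App g x b}.encard := by
      rw [← ha.cast_ncard_eq, ← hb.cast_ncard_eq]
      exact_mod_cast h
    have : Nonempty N := ⟨a⟩
    obtain ⟨φ, h1, h2⟩ := ha.exists_injOn_of_encard_le h0
    obtain ⟨f, hf⟩ := exists_finite (ha.image fun x => op x (φ x))
    refine ⟨f, fun x hx => ?_, fun x₁ x₂ x' hx₁ hx₂ h3 h4 => ?_⟩
    · have hx' : x ∈ {x | x ∈ el d ∧ App g x a} := ⟨hx.1, app_iff.2 hx.2⟩
      have h3 := h1 hx'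
      refine ⟨φ x, ⟨h3.1, app_iff.1 h3.2⟩, ?_⟩
      change op x (φ x) ∈ el f
      rw [hf]
      exact ⟨x, hx', rfl⟩
    · change op x₁ x' ∈ el f at h3
      change op x₂ x' ∈ el f at h4
      rw [hf] at h3 h4
      obtain ⟨u₁, hu₁, h5⟩ := h3
      obtain ⟨u₂, hu₂, h6⟩ := h4
      obtain ⟨rfl, h7⟩ := op_inj h5
      obtain ⟨rfl, h8⟩ := op_inj h6
      exact h2 hu₁ hu₂ (h7.trans h8.symm)

theorem fto (hsplit : ∀ y y' r : N, Amorphous y →
      (∀ x, Helper672.Plain.Mem x y' → Helper672.Plain.Mem x y) → ¬ IsFinite y' →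
      (∀ a b c, Helper672.Plain.Mem a y' → Helper672.Plain.Mem b y' →
        Helper672.Plain.Mem c y' → App r a b → App r b c → App r a c) →
      (∀ a b, Helper672.Plain.Mem a y' → Helper672.Plain.Mem b y' → App r a b ∨ App r b a) →
      (∀ s, (∀ x, Helper672.Plain.Mem x s → Helper672.Plain.Mem x y') →
        (∃ x, Helper672.Plain.Mem x s) →
        ∃ x, Helper672.Plain.Mem x s ∧ ∀ z, Helper672.Plain.Mem z s → App r x z) →
      (∀ a, Helper672.Plain.Mem a y' →
        {b | Helper672.Plain.Mem b y' ∧ App r a b ∧ App r b a}.Finite) → False)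
    {y : N} (hy : Amorphous y) (n : ℕ) : ∀ (d g : N),
      (∀ b, (∀ x, Helper672.Plain.Mem x b → Helper672.Plain.Mem x d) → ¬ Amorphous b) →
      (el d).Infinite →
      (∀ x, x ∈ el d → ∃ l : Finset N, l.card ≤ n ∧ ∀ z, App g x z ↔ z ∈ l) →
      (∀ x z, App g x z → x ∈ el d → z ∈ el y) →
      (∀ x, x ∈ el d →
        {x' | Helper672.Plain.Mem x' d ∧ ∀ z, App g x z ↔ App g x' z}.Finite) → False := by
  classical
  induction n with
  | zero =>
    intro d g _ hdi hl _ hfib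
    obtain ⟨x, hx⟩ := hdi.nonempty
    refine hdi ((hfib x hx).subset fun x' hx' => ⟨hx', fun z => ?_⟩)
    obtain ⟨l, h1, h2⟩ := hl x hx
    obtain ⟨l', h1', h2'⟩ := hl x' hx'
    have h3 : l = ∅ := Finset.card_eq_zero.1 (by omega)
    have h4 : l' = ∅ := Finset.card_eq_zero.1 (by omega)
    rw [h2, h2', h3, h4]
  | succ n ih =>
    intro d g hd hdi hl hgy hfib
    by_cases hA : ∃ z₀ ∈ el y, {x | x ∈ el d ∧ App g x z₀}.Infinite
    · obtain ⟨z₀, hz₀, hinf⟩ := hA
      obtain ⟨d₀, hd₀⟩ := exists_sep (p := fun x => Helper672.ZFA.Mem (op x z₀) g)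
        (D.memf (DF.op (DF.var _) (DF.const _)) (DF.const _)) d
      have hd₀' : ∀ x, x ∈ el d₀ ↔ x ∈ el d ∧ App g x z₀ := fun x => by
        rw [hd₀, app_iff]
        rfl
      obtain ⟨g₀, hg₀⟩ := exists_rel (p := fun x z => Helper672.ZFA.Mem (op x z) g ∧ ¬ z = z₀)
        (fun κ i j => D.and (D.memf (DF.op (DF.var _) (DF.var _)) (DF.const _))
          (D.not (D.eqf (DF.var _) (DF.const _)))) d y
      have hg₀' : ∀ x z, x ∈ el d → (App g₀ x z ↔ App g x z ∧ z ≠ z₀) := by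
        intro x z hx
        rw [hg₀]
        constructor
        · rintro ⟨_, _, h3, h4⟩
          exact ⟨app_iff.2 h3, h4⟩
        · rintro ⟨h3, h4⟩
          exact ⟨hx, hgy x z h3 hx, app_iff.1 h3, h4⟩
      have hsub : el d₀ ⊆ el d := fun x hx => ((hd₀' x).1 hx).1
      refine ih d₀ g₀ (fun b hb => hd b fun x hx => hsub (hb x hx)) ?_ ?_ ?_ ?_
      · have : el d₀ = {x | x ∈ el d ∧ App g x z₀} := Set.ext hd₀'
        rw [this]
        exact hinf
      · intro x hx
        obtain ⟨l, h1, h2⟩ := hl x (hsub hx)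
        refine ⟨l.erase z₀, ?_, fun z => ?_⟩
        · have h3 : z₀ ∈ l := (h2 z₀).1 ((hd₀' x).1 hx).2
          rw [Finset.card_erase_of_mem h3]
          omega
        · rw [hg₀' x z (hsub hx), Finset.mem_erase, h2, and_comm]
      · intro x z h1 hx
        exact hgy x z ((hg₀' x z (hsub hx)).1 h1).1 (hsub hx)
      · intro x hx
        refine (hfib x (hsub hx)).subset ?_
        rintro x' ⟨h1, h2⟩
        refine ⟨hsub h1, fun z => ?_⟩
        by_cases hz : z = z₀
        · subst hz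
          exact iff_of_true ((hd₀' x).1 hx).2 ((hd₀' x').1 h1).2
        · have h3 := h2 z
          rw [hg₀' x z (hsub hx), hg₀' x' z (hsub h1)] at h3
          exact ⟨fun h => (h3.1 ⟨h, hz⟩).1, fun h => (h3.2 ⟨h, hz⟩).1⟩
    · push Not at hA
      have hB : ∀ z, z ∈ el y → {x | x ∈ el d ∧ App g x z}.Finite := fun z hz => hA z hz
      have hK := caseB1 hstd hy hd hdi hgy hfib hB
      obtain ⟨r, hr⟩ := exists_rel (p := Cmp d g) (d_cmp d g) y y
      have hr' : ∀ a b, a ∈ el y → b ∈ el y → (App r a b ↔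
          {x | x ∈ el d ∧ App g x a}.ncard ≤ {x | x ∈ el d ∧ App g x b}.ncard) := by
        intro a b ha hb
        rw [hr, ← cmp_iff (hB a ha) (hB b hb)]
        exact ⟨fun h => h.2.2, fun h => ⟨ha, hb, h⟩⟩
      refine hsplit y y r hy (fun x hx => hx) hy.1 ?_ ?_ ?_ ?_
      · intro a b c ha hb hc h1 h2
        rw [hr' _ _ ha hb] at h1
        rw [hr' _ _ hb hc] at h2
        rw [hr' _ _ ha hc]
        exact h1.trans h2
      · intro a b ha hb
        rw [hr' _ _ ha hb, hr' _ _ hb ha]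
        exact le_total _ _
      · intro s hs hne
        obtain ⟨x, hx, hmin⟩ := (measure fun a => {x | x ∈ el d ∧ App g x a}.ncard).wf.has_min
          (el s) hne
        refine ⟨x, hx, fun z hz => ?_⟩
        rw [hr' _ _ (hs x hx) (hs z hz)]
        exact not_lt.1 (hmin z hz)
      · intro a ha
        refine (hK {x | x ∈ el d ∧ App g x a}.ncard).subset ?_
        rintro b ⟨h1, _, h3⟩
        exact ⟨h1, (hr' b a h1 ha).1 h3⟩

end

theorem taskFto : TaskFto := by
  intro hsplit N _ hF hstd y hy n d g hd hdf hl hgy hfib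
  exact fto hstd (hsplit N hF hstd) hy n d g hd (fun h => hdf (isFinite_of h)) hl hgy hfib

end Pool.Agent.H246R3.Fto
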