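import Pool.Agent.H958R6.Stmts

/-! # TaskGe of the knight's move project -/

namespace Pool.Agent.H246R3.KnightGe

open Polynomial Finset H958R6

theorem taskGe : TaskGe := by
  intro m
  have h1 : ∑ k ∈ range (2 * m + 1),
      C (ge m k) * ((1 + X) ^ k * (1 - X) ^ (2 * m - k) : ℚ[X]) =
      ∑ k ∈ (range (m + 1)).image (fun j => 2 * j),
        C (ge m k) * ((1 + X) ^ k * (1 - X) ^ (2 * m - k) : ℚ[X]) := by
    refine (Finset.sum_subset ?_ ?_).symm
    · intro k hk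
      obtain ⟨j, hj, rfl⟩ := Finset.mem_image.1 hk
      rw [Finset.mem_range] at hj ⊢
      omega
    · intro k hk hk'
      have h2 : k % 2 ≠ 0 := by
        intro h3
        refine hk' (Finset.mem_image.2 ⟨k / 2, ?_, ?_⟩)
        · rw [Finset.mem_range] at hk ⊢
          omega
        · change 2 * (k / 2) = k
          omega
      rw [ge, if_neg h2, C_0, zero_mul]
  rw [h1, Finset.sum_image (fun a _ b _ h => by simpa using h)]
  have h3 : (X : ℚ[X]) ^ m = C (1 / 4 ^ m) * ((1 + X) ^ 2 + -(1 - X) ^ 2) ^ m := by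
    have h4 : ((1 + X) ^ 2 + -(1 - X) ^ 2 : ℚ[X]) = C 4 * X := by
      have : (C 4 : ℚ[X]) = 4 := rfl
      rw [this]
      ring
    rw [h4, mul_pow, ← C_pow, ← mul_assoc, ← C_mul]
    have h5 : (1 / 4 ^ m * 4 ^ m : ℚ) = 1 := by
      field_simp
    rw [h5, C_1, one_mul]
  rw [h3, add_pow, Finset.mul_sum]
  refine Finset.sum_congr rfl fun j hj => ?_
  rw [Finset.mem_range] at hj
  have h6 : (2 * j) % 2 = 0 := by omega
  have h7 : (2 * j) / 2 = j := by omega
  rw [ge, if_pos h6, h7]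
  have h8 : (-(1 - X : ℚ[X]) ^ 2) ^ (m - j) = C ((-1) ^ (m + j)) * (1 - X) ^ (2 * m - 2 * j) := by
    rw [neg_pow, ← pow_mul, C_pow, C_neg, C_1]
    have h9 : 2 * (m - j) = 2 * m - 2 * j := by omega
    have h10 : m + j = (m - j) + 2 * j := by omega
    rw [h9, h10, pow_add (-1 : ℚ[X]) (m - j), pow_mul (-1 : ℚ[X]) 2 j]
    norm_num
  have h11 : ((1 + X : ℚ[X]) ^ 2) ^ j = (1 + X) ^ (2 * j) := by rw [← pow_mul]
  rw [h8, h11]
  have h12 : ((m.choose j : ℕ) : ℚ[X]) = C ((m.choose j : ℕ) : ℚ) := by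
    rw [map_natCast]
  rw [h12]
  have h13 : ((-1) ^ (m + j) * (m.choose j : ℚ) / 4 ^ m : ℚ) =
      1 / 4 ^ m * ((-1) ^ (m + j) * (m.choose j : ℚ)) := by ring
  rw [h13, C_mul, C_mul]
  ring

end Pool.Agent.H246R3.KnightGe
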